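import Pool.Agent.C4D.Diamond

/-!
# Graphs without induced diamond: a logarithmic improvement
-/

namespace Pool.Agent.Results.MP_3ced39_co.DiamondLog

/-- Every finite graph without induced diamond (`K₄` minus an edge) on `n` vertices satisfies
`n log α ≤ 24 ω α²`; `n (log n)² ≤ C α³` if `ω ≤ n^{2/5}`; and `n (log n)² ≤ C max(α, ω)³`. -/
theorem result {V : Type*} [Fintype V] (G : SimpleGraph V)
    (h : IsEmpty ((⊤ : SimpleGraph (Fin 4)).deleteEdges {s(0, 1)} ↪g G)) :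
    (Fintype.card V : ℝ) * Real.log G.indepNum ≤ 24 * G.cliqueNum * (G.indepNum : ℝ) ^ 2 ∧
    (G.cliqueNum ^ 5 ≤ Fintype.card V ^ 2 →
      (Fintype.card V : ℝ) * Real.log (Fintype.card V) ^ 2 ≤ 921600 * (G.indepNum : ℝ) ^ 3) ∧
    (Fintype.card V : ℝ) * Real.log (Fintype.card V) ^ 2 ≤
      921600 * max (G.indepNum : ℝ) G.cliqueNum ^ 3 :=
  Pool.Agent.C4D.dia_final G h

end Pool.Agent.Results.MP_3ced39_co.DiamondLog
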