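import Pool.Agent.C4W.Covers

/-!
# Graphs without induced 4-cycle: the fractional clique cover number is `O((α / log α)²)`
-/

namespace Pool.Agent.Results.MP_3ced39_co.FourCycleCover

open Finset

/-- Let `G` be a finite graph without induced `C₄`, with independence number `α` and clique number `ω`.
Some fractional clique cover (family `F` of cliques with weights `y`) has total weight at most
`C (α / log α)²`; for all vertex weights `w ≥ 0` some clique `K` has `w(V) (log α)² ≤ C w(K) α²`; the
vertex set is a union of at most `C (α / log α)² (1 + log ω)` cliques, i.e. the complement has a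
colouring with that many colours; and `n (log n)² ≤ C' max(α, ω)³` for the number `n` of vertices. -/
theorem result {V : Type*} [Fintype V] [DecidableEq V] (G : SimpleGraph V)
    (h : IsEmpty (SimpleGraph.cycleGraph 4 ↪g G)) :
    (∃ (F : Finset (Finset V)) (y : Finset V → ℝ), (∀ K ∈ F, G.IsClique (K : Set V) ∧ 0 ≤ y K) ∧
      (∀ v, 1 ≤ ∑ K ∈ F with v ∈ K, y K) ∧
      (∑ K ∈ F, y K) * Real.log G.indepNum ^ 2 ≤ 11796480 * (G.indepNum : ℝ) ^ 2) ∧
    (∀ w : V → ℝ, (∀ v, 0 ≤ w v) → ∃ K : Finset V, G.IsClique (K : Set V) ∧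
      (∑ v, w v) * Real.log G.indepNum ^ 2 ≤
        11796480 * (∑ v ∈ K, w v) * (G.indepNum : ℝ) ^ 2) ∧
    (∃ k : ℕ, Gᶜ.Colorable k ∧ (k : ℝ) * Real.log G.indepNum ^ 2 ≤
      11796480 * (1 + Real.log G.cliqueNum) * (G.indepNum : ℝ) ^ 2) ∧
    (Fintype.card V : ℝ) * Real.log (Fintype.card V) ^ 2 ≤
      424673280 * max (G.indepNum : ℝ) G.cliqueNum ^ 3 := by
  classical
  have hlogn : ∀ n : ℕ, 0 ≤ Real.log (n : ℝ) := fun n => Real.log_natCast_nonneg n
  refine ⟨?_, Pool.Agent.C4W.weight G h, ?_, (Pool.Agent.C4D.four_final G h).2⟩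
  · rcases le_or_gt G.indepNum 1 with h1 | h1
    · have hlog : Real.log (G.indepNum : ℝ) = 0 := by
        interval_cases G.indepNum <;> simp
      refine ⟨univ.filter (fun K : Finset V => G.IsClique (K : Set V)), fun _ => 1, ?_, ?_, ?_⟩
      · intro K hK
        exact ⟨(mem_filter.1 hK).2, zero_le_one⟩
      · intro v
        rw [sum_const, nsmul_eq_mul, mul_one]
        have : 0 < #{K ∈ univ.filter (fun K : Finset V => G.IsClique (K : Set V)) | v ∈ K} :=
          card_pos.2 ⟨{v}, by simp⟩
        exact_mod_cast this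
      · rw [hlog]
        have : (0 : ℝ) ≤ 11796480 * (G.indepNum : ℝ) ^ 2 := by positivity
        simpa using this
    · have hα : (1 : ℝ) < G.indepNum := by exact_mod_cast h1
      have hL : 0 < Real.log (G.indepNum : ℝ) ^ 2 := by
        have := Real.log_pos hα
        positivity
      have hρ0 : 0 < 11796480 * (G.indepNum : ℝ) ^ 2 / Real.log G.indepNum ^ 2 := by positivity
      obtain ⟨F, y, hF, hcov, hsum⟩ := Pool.Agent.C4W.frac_cover G hρ0 (by
        intro w hw
        obtain ⟨K, hK, hb⟩ := Pool.Agent.C4W.weight G h w hw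
        refine ⟨K, hK, ?_⟩
        rw [div_mul_eq_mul_div, le_div_iff₀ hL]
        linarith)
      refine ⟨F, y, hF, hcov, ?_⟩
      rwa [le_div_iff₀ hL] at hsum
  · obtain ⟨F, w, hF, hcov, hw, hcard, hbound⟩ := Pool.Agent.C4W.greedy G univ
    refine ⟨#F, ?_, ?_⟩
    · have hcov' : ∀ v : V, ∃ K : F, v ∈ K.1 := fun v => by
        obtain ⟨K, hK, hv⟩ := hcov v (mem_univ v)
        exact ⟨⟨K, hK⟩, hv⟩
      choose c hc using hcov'
      have hcol : Gᶜ.Coloring F := SimpleGraph.Coloring.mk c (by
        intro a b hab hcab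
        rw [SimpleGraph.compl_adj] at hab
        have hb : b ∈ (c a).1 := by rw [hcab]; exact hc b
        exact hab.2 (hF _ (c a).2 (hc a) hb hab.1))
      have := hcol.colorable
      rwa [Fintype.card_coe] at this
    · obtain ⟨K, hK, hb⟩ := Pool.Agent.C4W.weight G h w hw
      have h1 := hbound K hK
      have h2 : (harmonic #(K ∩ univ) : ℝ) ≤ 1 + Real.log G.cliqueNum := by
        rw [inter_univ]
        rcases Nat.eq_zero_or_pos #K with h0 | h0
        · rw [h0]
          have := hlogn G.cliqueNum
          simp only [harmonic_zero, Rat.cast_zero]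
          linarith
        · refine (harmonic_le_one_add_log _).trans ?_
          have h3 : #K ≤ G.cliqueNum := hK.card_le_cliqueNum
          have h4 : Real.log (#K : ℝ) ≤ Real.log (G.cliqueNum : ℝ) :=
            Real.log_le_log (by exact_mod_cast h0) (by exact_mod_cast h3)
          linarith
      calc (#F : ℝ) * Real.log G.indepNum ^ 2 ≤ (∑ v, w v) * Real.log G.indepNum ^ 2 := by gcongr
        _ ≤ 11796480 * (∑ v ∈ K, w v) * (G.indepNum : ℝ) ^ 2 := hb
        _ ≤ 11796480 * (1 + Real.log G.cliqueNum) * (G.indepNum : ℝ) ^ 2 := by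
            have := h1.trans h2
            gcongr

end Pool.Agent.Results.MP_3ced39_co.FourCycleCover
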