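import Pool.Agent.C4F.Frac

/-!
# The exponent of the 4-cycle, bounded clique numbers and fractional clique covers
-/

namespace Pool.Agent.Results.MP_3ced39_co.FourCycleExponent

open Finset Pool.Agent.C4B

/-- Let `γ` be the least upper bound of the `g > 0` such that for every `k` all large graphs without
induced `C₄` and with clique number at most `k` have an independent set of size `n ^ g`. Then
`1/2 ≤ γ ≤ 1`; the exponent `ε(C₄)` (the least upper bound of the `e > 0` such that all large graphs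
without induced `C₄` have a homogeneous set of size `n ^ e`) equals `γ / (1 + γ)`; `1 / γ` is the greatest
lower bound of the `b > 0` such that for some `C` all graphs without induced `C₄`, whatever their clique
number, have a fractional clique cover of total weight at most `C α ^ b`; and `ε(C₄) > 1/3` if and only if
some `1/2 + δ` with `δ > 0` is admissible for every `k`. Finite form: for all `k` and `N > 0` a graph
without induced `C₄` has a vertex set `S` that contains no clique with more than `k` vertices and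
satisfies `n N ^ k ≤ |S| N ^ (k+1) + (k+1) n³ ω ^ k`. -/
theorem result :
    (∃ γ : ℝ, 1 / 2 ≤ γ ∧ γ ≤ 1 ∧
      IsLUB {g : ℝ | 0 < g ∧ ∀ k : ℕ, ∃ n₀ : ℕ, ∀ (V : Type) [Fintype V] (G : SimpleGraph V),
        n₀ ≤ Fintype.card V → IsEmpty (SimpleGraph.cycleGraph 4 ↪g G) → G.cliqueNum ≤ k →
          (Fintype.card V : ℝ) ^ g ≤ G.indepNum} γ ∧
      IsLUB {e : ℝ | 0 < e ∧ ∃ n₀ : ℕ, ∀ (V : Type) [Fintype V] (G : SimpleGraph V),
        n₀ ≤ Fintype.card V → IsEmpty (SimpleGraph.cycleGraph 4 ↪g G) →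
          (Fintype.card V : ℝ) ^ e ≤ max (G.indepNum : ℝ) G.cliqueNum} (γ / (1 + γ)) ∧
      IsGLB {b : ℝ | 0 < b ∧ ∃ C : ℝ, ∀ (V : Type) [Fintype V] [DecidableEq V] (G : SimpleGraph V),
        IsEmpty (SimpleGraph.cycleGraph 4 ↪g G) →
          ∃ (F : Finset (Finset V)) (y : Finset V → ℝ), (∀ K ∈ F, G.IsClique (K : Set V) ∧ 0 ≤ y K) ∧
            (∀ v, 1 ≤ ∑ K ∈ F with v ∈ K, y K) ∧
            ∑ K ∈ F, y K ≤ C * (G.indepNum : ℝ) ^ b} (1 / γ) ∧
      (1 / 3 < γ / (1 + γ) ↔ ∃ δ : ℝ, 0 < δ ∧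
        ∀ k : ℕ, ∃ n₀ : ℕ, ∀ (V : Type) [Fintype V] (G : SimpleGraph V),
          n₀ ≤ Fintype.card V → IsEmpty (SimpleGraph.cycleGraph 4 ↪g G) → G.cliqueNum ≤ k →
            (Fintype.card V : ℝ) ^ (1 / 2 + δ) ≤ G.indepNum)) ∧
    ∀ (V : Type) [Fintype V] (G : SimpleGraph V), IsEmpty (SimpleGraph.cycleGraph 4 ↪g G) →
      ∀ k N : ℕ, 0 < N → ∃ S : Finset V, (∀ K ⊆ S, G.IsClique (K : Set V) → #K ≤ k) ∧
        Fintype.card V * N ^ k ≤
          #S * N ^ (k + 1) + (k + 1) * Fintype.card V ^ 3 * G.cliqueNum ^ k := by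
  refine ⟨⟨sSup {g : ℝ | 0 < g ∧ BddExp g}, half_le_sup, sup_le_one, isLUB_bdd, ?_,
    Pool.Agent.C4F.isGLB_cov, ?_⟩, ?_⟩
  · rw [← exponent_eq]
    exact isLUB_hom
  · rw [← exponent_eq]
    exact third_lt_iff
  · intro V _ G hG k N hN
    exact finite_sets G hG k N hN

end Pool.Agent.Results.MP_3ced39_co.FourCycleExponent
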